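import Pool.Agent.Q17.DM.Stm
import Pool.Agent.Q224.OS.WPX
import Pool.Agent.Q151.AM.SYL

/-!
# JOB WZN of project DM: alternating sums for subgroups not contained in the base group
-/

set_option autoImplicit false

open scoped Classical

noncomputable section

namespace Pool.Agent.Q151.DM

open Pool.Agent.H254R3.IN hiding NN
open Pool.Agent.Y63.KR Pool.Agent.Q17.WR Pool.Agent.Q17.AM Pool.Agent.Q17.OS Pool.Agent.Q17.DM
open Pool.Agent.Q18.KRX (E E_image)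
open Pool.Agent.Q224.OS (GZ mem_GZ WZ_eq E_retract_up)

section

variable {G : Type} [Group G] {r : ℕ} [Fact r.Prime]

lemma lft_mul (x y : Wc G r) (ω : Cy r) :
    (x * y).left ω = x.left ω * y.left (x.right⁻¹ * ω) := rfl

lemma lft_inv (x : Wc G r) (ω : Cy r) : (x⁻¹).left ω = (x.left (x.right * ω))⁻¹ := by
  change (x.left ((x.right⁻¹)⁻¹ * ω))⁻¹ = _
  rw [inv_inv]

lemma rgt_cj (c x : Wc G r) (hx : x.right = 1) : (c * x * c⁻¹).right = 1 := by
  rw [SemidirectProduct.mul_right, SemidirectProduct.mul_right, hx, mul_one,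
    SemidirectProduct.inv_right, mul_inv_cancel]

lemma lft_cj (c x : Wc G r) (hx : x.right = 1) (ω : Cy r) :
    (c * x * c⁻¹).left ω = c.left ω * x.left (c.right⁻¹ * ω) * (c.left ω)⁻¹ := by
  rw [lft_mul, lft_mul, lft_inv, SemidirectProduct.mul_right, hx, mul_one, mul_inv_cancel_left]

lemma lft_pow (x : Wc G r) (hx : x.right = 1) (n : ℕ) :
    (x ^ n).right = 1 ∧ ∀ ω, (x ^ n).left ω = x.left ω ^ n := by
  induction n with
  | zero =>
    refine ⟨by rw [pow_zero]; rfl, fun ω => ?_⟩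
    rw [pow_zero, pow_zero]
    rfl
  | succ n ih =>
    refine ⟨by rw [pow_succ, SemidirectProduct.mul_right, ih.1, hx, one_mul], fun ω => ?_⟩
    rw [pow_succ, lft_mul, ih.1, inv_one, one_mul, ih.2, pow_succ]

lemma mem_Pw {Q : Cy r → Subgroup G} {x : Wc G r} :
    x ∈ Pw Q ↔ x.right = 1 ∧ ∀ ω, x.left ω ∈ Q ω := Iff.rfl

lemma mem_cmp {ω : Cy r} {K : Subgroup (Wc G r)} {g : G} :
    g ∈ Q17.DM.cmp ω K ↔ ∃ x ∈ K, x.right = 1 ∧ x.left ω = g := Iff.rfl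

lemma Pw_le {Q Q' : Cy r → Subgroup G} : Pw Q ≤ Pw Q' ↔ ∀ ω, Q ω ≤ Q' ω := by
  constructor
  · intro h ω g hg
    have h1 : (⟨fun a => if a = ω then g else 1, 1⟩ : Wc G r) ∈ Pw Q := by
      refine ⟨rfl, fun a => ?_⟩
      show (if a = ω then g else 1) ∈ Q a
      split_ifs with h2
      · rw [h2]
        exact hg
      · exact (Q a).one_mem
    have h2 := (h h1).2 ω
    have h3 : (if ω = ω then g else 1) ∈ Q' ω := h2
    rwa [if_pos rfl] at h3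
  · intro h x hx
    exact ⟨hx.1, fun ω => h ω (hx.2 ω)⟩

lemma cmp_Pw (Q : Cy r → Subgroup G) (ω : Cy r) : Q17.DM.cmp ω (Pw Q) = Q ω := by
  ext g
  rw [mem_cmp]
  constructor
  · rintro ⟨x, hx, -, rfl⟩
    exact hx.2 ω
  · intro hg
    refine ⟨(⟨fun a => if a = ω then g else 1, 1⟩ : Wc G r), ⟨rfl, fun a => ?_⟩, rfl, ?_⟩
    · show (if a = ω then g else 1) ∈ Q a
      split_ifs with h2
      · rw [h2]
        exact hg
      · exact (Q a).one_mem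
    · show (if ω = ω then g else 1) = g
      rw [if_pos rfl]

lemma pg_Pw {p : ℕ} {Q : Cy r → Subgroup G} (h : ∀ ω, IsPGroup p (Q ω)) :
    IsPGroup p (Pw Q) := by
  rintro ⟨x, hx⟩
  have h1 : ∀ ω, ∃ k, x.left ω ^ p ^ k = 1 := by
    intro ω
    obtain ⟨k, hk⟩ := h ω ⟨x.left ω, hx.2 ω⟩
    exact ⟨k, congrArg Subtype.val hk⟩
  choose k hk using h1
  refine ⟨∑ ω, k ω, ?_⟩
  apply Subtype.ext
  show x ^ p ^ (∑ ω, k ω) = 1
  obtain ⟨h2, h3⟩ := lft_pow x hx.1 (p ^ (∑ ω, k ω))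
  refine SemidirectProduct.ext ?_ h2
  funext ω
  rw [h3, ← Finset.add_sum_erase _ _ (Finset.mem_univ ω), pow_add, pow_mul, hk, one_pow]
  rfl

/-- a `p`-subgroup is contained in the base group -/
lemma pg_base {p : ℕ} [Fact p.Prime] (hpr : p ≠ r) {P : Subgroup (Wc G r)} (hP : IsPGroup p P)
    {x : Wc G r} (hx : x ∈ P) : x.right = 1 := by
  obtain ⟨k, hk⟩ := hP ⟨x, hx⟩
  have h1 : x ^ p ^ k = 1 := congrArg Subtype.val hk
  have h2 : x.right ^ p ^ k = 1 := by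
    have h3 := congrArg (SemidirectProduct.rightHom : Wc G r →* Cy r) h1
    rwa [map_pow, map_one] at h3
  have h3 : orderOf x.right ∣ p ^ k := orderOf_dvd_of_pow_eq_one h2
  have h4 : orderOf x.right ∣ r := by
    have h5 := orderOf_dvd_natCard x.right
    rwa [Nat.card_congr (Multiplicative.toAdd : Cy r ≃ ZMod r), Nat.card_zmod] at h5
  have hp : p.Prime := Fact.out
  have hr : r.Prime := Fact.out
  have h5 : Nat.Coprime (p ^ k) r := Nat.Coprime.pow_left k ((Nat.coprime_primes hp hr).mpr hpr)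
  have h6 : orderOf x.right ∣ 1 := by
    rw [← h5.gcd_eq_one]
    exact Nat.dvd_gcd h3 h4
  exact orderOf_eq_one_iff.mp (Nat.dvd_one.mp h6)

/-- the hull -/
def hul (P : Subgroup (Wc G r)) : Subgroup (Wc G r) := Pw (fun ω => Q17.DM.cmp ω P)

lemma le_hul {P : Subgroup (Wc G r)} (h : ∀ x ∈ P, x.right = 1) : P ≤ hul P :=
  fun x hx => ⟨h x hx, fun _ => ⟨x, hx, h x hx, rfl⟩⟩

lemma hul_Pw (Q : Cy r → Subgroup G) : hul (Pw Q) = Pw Q := by
  unfold hul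
  congr 1
  funext ω
  exact cmp_Pw Q ω

lemma cmp_mono {P Q : Subgroup (Wc G r)} (h : P ≤ Q) (ω : Cy r) : Q17.DM.cmp ω P ≤ Q17.DM.cmp ω Q := by
  rintro g ⟨x, hx, h1, h2⟩
  exact ⟨x, h hx, h1, h2⟩

lemma hul_mono {P Q : Subgroup (Wc G r)} (h : P ≤ Q) : hul P ≤ hul Q :=
  Pw_le.mpr fun ω => cmp_mono h ω

lemma pg_cmp {p : ℕ} {P : Subgroup (Wc G r)} (hP : IsPGroup p P) (ω : Cy r) :
    IsPGroup p (Q17.DM.cmp ω P) := by
  rintro ⟨g, y, hy, h1, rfl⟩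
  obtain ⟨k, hk⟩ := hP ⟨y, hy⟩
  refine ⟨k, ?_⟩
  apply Subtype.ext
  show y.left ω ^ p ^ k = 1
  have h2 : y ^ p ^ k = 1 := congrArg Subtype.val hk
  rw [← (lft_pow y h1 (p ^ k)).2 ω, h2]
  rfl

lemma norm_mem {Γ : Type} [Group Γ] {K P : Subgroup Γ} (h : K ≤ Subgroup.normalizer (P : Set Γ))
    {k x : Γ} (hk : k ∈ K) (hx : x ∈ P) : k * x * k⁻¹ ∈ P :=
  (Subgroup.mem_normalizer_iff.1 (h hk) x).1 hx

lemma norm_of {Γ : Type} [Group Γ] {K P : Subgroup Γ} (h : ∀ k ∈ K, ∀ x ∈ P, k * x * k⁻¹ ∈ P) :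
    K ≤ Subgroup.normalizer (P : Set Γ) := by
  intro k hk
  rw [Subgroup.mem_normalizer_iff]
  intro x
  refine ⟨h k hk x, fun hx => ?_⟩
  have h1 := h k⁻¹ (K.inv_mem hk) _ hx
  have h2 : k⁻¹ * (k * x * k⁻¹) * k⁻¹⁻¹ = x := by group
  rwa [h2] at h1

lemma norm_hul {K P : Subgroup (Wc G r)} (h : K ≤ Subgroup.normalizer (P : Set (Wc G r))) :
    K ≤ Subgroup.normalizer (hul P : Set (Wc G r)) := by
  refine norm_of fun k hk x hx => ⟨rgt_cj k x hx.1, fun ω => ?_⟩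
  obtain ⟨y, hy, h1, h2⟩ := hx.2 (k.right⁻¹ * ω)
  refine ⟨k * y * k⁻¹, norm_mem h hk hy, rgt_cj k y h1, ?_⟩
  rw [lft_cj k y h1, lft_cj k x hx.1, h2]

/-- conjugation -/
def cjg (g : G) (Q : Subgroup G) : Subgroup G := Q.map (MulAut.conj g).toMonoidHom

lemma mem_cjg {g h : G} {Q : Subgroup G} : h ∈ cjg g Q ↔ ∃ q ∈ Q, g * q * g⁻¹ = h := Iff.rfl

lemma cjg_le {g : G} {Q Q' : Subgroup G} : cjg g Q ≤ cjg g Q' ↔ Q ≤ Q' :=
  Subgroup.map_le_map_iff_of_injective (MulAut.conj g).injective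

lemma cjg_bot (g : G) : cjg g ⊥ = ⊥ := Subgroup.map_bot _

end

theorem t_WZN : S_WZN := by
  intro p r _ _ hpr G _ _ K hK
  obtain ⟨x₀, hx₀, hx₀'⟩ := hK
  -- the elements `x_ω`
  have hex : ∀ ω : Cy r, ∃ x ∈ K, x.right = ω := by
    intro ω
    have hcard : Nat.card (Cy r) = r := by
      rw [Nat.card_congr (Multiplicative.toAdd : Cy r ≃ ZMod r), Nat.card_zmod]
    have h1 : ω ∈ Subgroup.zpowers x₀.right := by
      rw [zpowers_eq_top_of_prime_card hcard hx₀']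
      exact Subgroup.mem_top _
    obtain ⟨n, hn⟩ := h1
    refine ⟨x₀ ^ n, K.zpow_mem hx₀ n, ?_⟩
    have h2 := map_zpow (SemidirectProduct.rightHom : Wc G r →* Cy r) x₀ n
    exact h2.trans hn
  choose xx hxK hxr using hex
  obtain ⟨f, hf⟩ : ∃ f : Subgroup G → Subgroup (Wc G r),
      ∀ Q, f Q = Pw (fun ω => cjg ((xx ω).left ω) Q) := ⟨_, fun _ => rfl⟩
  have hfle : ∀ Q Q', f Q ≤ f Q' ↔ Q ≤ Q' := by
    intro Q Q'
    rw [hf, hf, Pw_le]
    constructor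
    · intro h
      exact cjg_le.mp (h 1)
    · intro h ω
      exact cjg_le.mpr h
  have hfbot : f ⊥ = ⊥ := by
    rw [hf, eq_bot_iff]
    rintro x ⟨h1, h2⟩
    rw [Subgroup.mem_bot]
    refine SemidirectProduct.ext ?_ h1
    funext ω
    have h3 : x.left ω ∈ cjg ((xx ω).left ω) ⊥ := h2 ω
    rw [cjg_bot, Subgroup.mem_bot] at h3
    rw [h3]
    rfl
  -- elements of `K`
  have hz : ∀ k ∈ K, ∀ ω : Cy r, ((xx ω).left ω)⁻¹ * k.left ω *
      (xx (k.right⁻¹ * ω)).left (k.right⁻¹ * ω) ∈ Q17.DM.cmp 1 K := by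
    intro k hk ω
    refine ⟨(xx ω)⁻¹ * (k * xx (k.right⁻¹ * ω)),
      K.mul_mem (K.inv_mem (hxK ω)) (K.mul_mem hk (hxK _)), ?_, ?_⟩
    · rw [SemidirectProduct.mul_right, SemidirectProduct.mul_right, SemidirectProduct.inv_right,
        hxr, hxr]
      group
    · rw [lft_mul, lft_inv, lft_mul, SemidirectProduct.inv_right, hxr, inv_inv, mul_one,
        mul_assoc]
  have := Pool.Agent.Q151.AM.finite_wc G r
  rw [WZ_eq, WZ_eq, E_retract_up hul]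
  · rw [← E_image ((GZ p ⊤ ⊥ (Q17.DM.cmp 1 K)).erase ⊥) f (fun Q _ Q' _ => hfle Q Q')]
    congr 1
    ext P
    simp only [Finset.mem_filter, Finset.mem_image, Finset.mem_erase]
    constructor
    · rintro ⟨⟨a, b⟩, c⟩
      obtain ⟨b1, -, -, b4⟩ := mem_GZ.1 b
      have hcmp : ∀ ω, Q17.DM.cmp ω P = cjg ((xx ω).left ω) (Q17.DM.cmp 1 P) := by
        intro ω
        ext g
        rw [mem_cjg]
        constructor
        · rintro ⟨y, hy, h1, rfl⟩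
          refine ⟨((xx ω)⁻¹ * y * (xx ω)⁻¹⁻¹).left 1,
            ⟨_, norm_mem b4 (K.inv_mem (hxK ω)) hy, rgt_cj _ y h1, rfl⟩, ?_⟩
          rw [lft_cj _ y h1, lft_inv, SemidirectProduct.inv_right, hxr, inv_inv, mul_one]
          group
        · rintro ⟨q, ⟨y, hy, h1, rfl⟩, rfl⟩
          refine ⟨xx ω * y * (xx ω)⁻¹, norm_mem b4 (hxK ω) hy, rgt_cj _ y h1, ?_⟩
          rw [lft_cj _ y h1, hxr, inv_mul_cancel]
      have hfP : f (Q17.DM.cmp 1 P) = P := by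
        rw [hf]
        nth_rw 2 [← c]
        unfold hul
        congr 1
        funext ω
        exact (hcmp ω).symm
      refine ⟨Q17.DM.cmp 1 P, ⟨?_, mem_GZ.2 ⟨pg_cmp b1 1, le_top, bot_le, norm_of ?_⟩⟩, hfP⟩
      · intro h
        apply a
        rw [← hfP, h, hfbot]
      · rintro _ ⟨k, hk, hk1, rfl⟩ _ ⟨y, hy, h1, rfl⟩
        refine ⟨k * y * k⁻¹, norm_mem b4 hk hy, rgt_cj k y h1, ?_⟩
        rw [lft_cj k y h1, hk1, inv_one, one_mul]
    · rintro ⟨Q, ⟨a, b⟩, rfl⟩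
      obtain ⟨b1, -, -, b4⟩ := mem_GZ.1 b
      refine ⟨⟨?_, mem_GZ.2 ⟨?_, le_top, bot_le, norm_of ?_⟩⟩, ?_⟩
      · intro h
        apply a
        rw [eq_bot_iff, ← hfle, h]
        exact bot_le
      · rw [hf]
        exact pg_Pw fun ω => b1.map _
      · intro k hk x hx
        rw [hf] at hx ⊢
        refine ⟨rgt_cj k x hx.1, fun ω => ?_⟩
        obtain ⟨q, hq, h1⟩ := mem_cjg.1 (hx.2 (k.right⁻¹ * ω))
        have h2 := norm_mem b4 (hz k hk ω) hq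
        refine mem_cjg.2 ⟨_, h2, ?_⟩
        rw [lft_cj k x hx.1, ← h1]
        group
      · rw [hf]
        exact hul_Pw _
  · intro P hP
    obtain ⟨a, b⟩ := Finset.mem_erase.1 hP
    obtain ⟨b1, -, -, b4⟩ := mem_GZ.1 b
    have h1 : P ≤ hul P := le_hul fun x hx => pg_base hpr b1 hx
    refine Finset.mem_erase.2 ⟨?_, mem_GZ.2 ⟨pg_Pw fun ω => pg_cmp b1 ω, le_top, bot_le,
      norm_hul b4⟩⟩
    intro h
    apply a
    rw [eq_bot_iff, ← h]
    exact h1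
  · intro P hP
    obtain ⟨b1, -⟩ := mem_GZ.1 (Finset.mem_erase.1 hP).2
    exact le_hul fun x hx => pg_base hpr b1 hx
  · intro P _
    exact hul_Pw _
  · intro P _ Q _ h
    exact hul_mono h

end Pool.Agent.Q151.DM
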